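import Pool.Agent.H36.RP.Targets

/-!
# Row CHO of rp_modules: the vanishing of the correlations and the remote past
-/

set_option autoImplicit false

open MeasureTheory ProbabilityTheory Filter Topology Finset

namespace Pool.Agent.H85.RP

open Pool.Agent.H89.MT (I1 X pt z1 o1 m1 IsMult)
open Pool.Agent.H36.RP

/-! ### Translations -/

/-- the translation by `a` -/
def TT (a : ℤ) (x : X) : X := fun t => x (t + a)

theorem measurable_TT (a : ℤ) : Measurable (TT a) :=
  measurable_pi_iff.2 fun t => measurable_pi_apply (t + a)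

theorem mp_TT {κ : Measure X} (h : MeasurePreserving S κ κ) (a : ℤ) :
    MeasurePreserving (TT a) κ κ := by
  have h1 : ∀ n : ℕ, MeasurePreserving (TT n) κ κ := by
    intro n
    induction n with
    | zero =>
      have e : TT ((0 : ℕ) : ℤ) = id := by
        funext x t
        show x (t + ((0 : ℕ) : ℤ)) = x t
        rw [Nat.cast_zero, add_zero]
      rw [e]
      exact MeasurePreserving.id κ
    | succ n ih =>
      have e : TT ((n + 1 : ℕ) : ℤ) = S ∘ TT n := by
        funext x t
        show x (t + ((n + 1 : ℕ) : ℤ)) = x (t + 1 + n)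
        have e2 : t + ((n + 1 : ℕ) : ℤ) = t + 1 + n := by
          push_cast
          ring
        rw [e2]
      rw [e]
      exact h.comp ih
  obtain ⟨n, rfl | rfl⟩ := Int.eq_nat_or_neg a
  · exact h1 n
  · refine ⟨measurable_TT _, ?_⟩
    have e : TT (-(n : ℤ)) ∘ TT n = id := by
      funext x t
      show x (t + -(n : ℤ) + n) = x t
      rw [neg_add_cancel_right]
    have e2 := Measure.map_map (μ := κ) (measurable_TT (-(n : ℤ))) (measurable_TT n)
    rw [(h1 n).map_eq, e, Measure.map_id] at e2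
    exact e2

theorem comap_TT_past (a q : ℤ) : (past (q - a)).comap (TT a) ≤ past q := by
  have h0 : past (q - a) ≤ (past q).map (TT a) := by
    unfold past
    refine iSup_le fun k => iSup_le fun hk => ?_
    rw [← MeasurableSpace.comap_le_iff_le_map, MeasurableSpace.comap_comp]
    have hk2 : k + a ≤ q := by omega
    exact le_iSup_of_le (k + a) (le_iSup_of_le hk2 le_rfl)
  exact MeasurableSpace.comap_le_iff_le_map.2 h0

theorem comap_TT_remote (a : ℤ) : remote.comap (TT a) ≤ remote :=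
  le_iInf fun q => (MeasurableSpace.comap_mono (remote_le_past (q - a))).trans (comap_TT_past a q)

theorem preimage_TT {a : ℤ} {B : Set X} (hB : MeasurableSet[remote] B) :
    MeasurableSet[remote] (TT a ⁻¹' B) :=
  comap_TT_remote a _ ⟨B, hB, rfl⟩

/-! ### The coordinates -/

theorem cont_coord (n : ℤ) : Continuous fun x : X => (x n : ℝ) :=
  continuous_subtype_val.comp (continuous_apply n)

theorem int_cont (κ : Measure X) [IsProbabilityMeasure κ] {f : X → ℝ} (hf : Continuous f) :
    Integrable f κ := hf.integrable_of_hasCompactSupport (HasCompactSupport.of_compactSpace f)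

theorem abs_coord (x : X) (n : ℤ) : |(x n : ℝ)| ≤ 1 := abs_le.2 (x n).2

theorem meas_coord {ψ : I1 → ℝ} (hψ : Measurable ψ) {k q : ℤ} (h : k ≤ q) :
    Measurable[past q] fun x : X => ψ (x k) := by
  have h1 : MeasurableSpace.comap (fun x : X => x k) inferInstance ≤ past q := by
    unfold past
    exact le_iSup_of_le k (le_iSup_of_le h le_rfl)
  exact hψ.comp (measurable_iff_comap_le.2 h1)

theorem zero_all {κ : Measure X} [IsProbabilityMeasure κ] (hS : MeasurePreserving S κ κ)
    (h0 : κ[fun x => (x 0 : ℝ) | remote] =ᵐ[κ] 0) (n : ℤ) :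
    κ[fun x => (x n : ℝ) | remote] =ᵐ[κ] 0 := by
  symm
  refine ae_eq_condExp_of_forall_setIntegral_eq remote_le (int_cont κ (cont_coord n))
    (fun s _ _ => (integrable_zero X ℝ κ).integrableOn) (fun B hB _ => ?_)
    stronglyMeasurable_zero.aestronglyMeasurable
  have h1 := setIntegral_map (μ := κ) (g := TT (-n)) (f := fun x : X => (x n : ℝ)) (s := B)
    (remote_le _ hB) (cont_coord n).measurable.aestronglyMeasurable
    (measurable_TT (-n)).aemeasurable
  rw [(mp_TT hS (-n)).map_eq] at h1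
  have h2 : (fun x : X => ((TT (-n) x) n : ℝ)) = fun x : X => (x 0 : ℝ) := by
    funext x
    show (x (n + -n) : ℝ) = x 0
    rw [add_neg_cancel]
  rw [h2] at h1
  rw [h1, ← setIntegral_condExp remote_le (int_cont κ (cont_coord 0)) (preimage_TT hB)]
  rw [setIntegral_congr_ae (g := fun _ : X => (0 : ℝ)) (remote_le _ (preimage_TT hB))
    (h0.mono fun x hx _ => hx)]
  simp

/-! ### The pull out -/

theorem pull {κ : Measure X} [IsProbabilityMeasure κ] {m : MeasurableSpace X}
    (hm : m ≤ MeasurableSpace.pi) {f g W : X → ℝ} {C : ℝ} (hf : Integrable f κ)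
    (hW : Measurable[m] W) (hC : ∀ x, |W x| ≤ C) (hg : κ[f | m] =ᵐ[κ] g) :
    ∫ x, W x * f x ∂κ = ∫ x, W x * g x ∂κ := by
  have h1 : κ[W * f | m] =ᵐ[κ] W * κ[f | m] :=
    condExp_stronglyMeasurable_mul_of_bound hm hW.stronglyMeasurable
      hf C (Eventually.of_forall fun x => by
        rw [Real.norm_eq_abs]
        exact hC x)
  have h2 : ∫ x, (W * f) x ∂κ = ∫ x, (κ[W * f | m]) x ∂κ := (integral_condExp hm).symm
  have h3 : ∫ x, W x * f x ∂κ = ∫ x, (κ[W * f | m]) x ∂κ := h2
  rw [h3]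
  refine integral_congr_ae ?_
  filter_upwards [h1, hg] with x hx1 hx2
  rw [hx1, Pi.mul_apply, hx2]

/-! ### From the remote past to the correlations -/

theorem prod_meas {ψ : ℤ → I1 → ℝ} (hψ : ∀ k, Measurable (ψ k)) (s : Finset ℤ) {q : ℤ}
    (h : ∀ k ∈ s, k ≤ q) : Measurable[past q] fun x : X => ∏ k ∈ s, ψ k (x k) := by
  refine @Finset.measurable_fun_prod ℝ ℤ X _ _ _ (past q) _ s fun k hk => ?_
  exact meas_coord (hψ k) (h k hk)

theorem prod_bd {ψ : ℤ → I1 → ℝ} (hb : ∀ k a, |ψ k a| ≤ 1) (s : Finset ℤ) (x : X) :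
    |∏ k ∈ s, ψ k (x k)| ≤ 1 := by
  rw [Finset.abs_prod]
  exact Finset.prod_le_one (fun k _ => abs_nonneg _) fun k _ => hb k _

theorem direct {κ : Measure X} [IsProbabilityMeasure κ]
    (h1 : ∀ (m : ℤ) (ψ : I1 → ℝ), Measurable ψ → (∀ a, |ψ a| ≤ 1) →
      κ[fun x => ψ (x m) | past (m - 1)] =ᵐ[κ] κ[fun x => ψ (x m) | remote])
    (h0 : ∀ n : ℤ, κ[fun x => (x n : ℝ) | remote] =ᵐ[κ] 0)
    {ψ : ℤ → I1 → ℝ} (hψ : ∀ k, Measurable (ψ k)) (hb : ∀ k a, |ψ k a| ≤ 1)
    {R : X → ℝ} (hR : Measurable[remote] R) {C : ℝ} (hC : ∀ x, |R x| ≤ C)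
    (s : Finset ℤ) (n : ℤ) (hs : ∀ k ∈ s, k < n) :
    ∫ x, (x n : ℝ) * ((∏ k ∈ s, ψ k (x k)) * R x) ∂κ = 0 := by
  have hW : Measurable[past (n - 1)] fun x : X => (∏ k ∈ s, ψ k (x k)) * R x :=
    (prod_meas hψ s fun k hk => by
      have := hs k hk
      omega).mul (hR.mono (remote_le_past _) le_rfl)
  have hWb : ∀ x : X, |(∏ k ∈ s, ψ k (x k)) * R x| ≤ C := by
    intro x
    rw [abs_mul]
    calc |∏ k ∈ s, ψ k (x k)| * |R x| ≤ 1 * |R x| :=
          mul_le_mul_of_nonneg_right (prod_bd hb s x) (abs_nonneg _)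
      _ ≤ C := by
          rw [one_mul]
          exact hC x
  have h2 := (h1 n (fun a => (a : ℝ)) measurable_subtype_coe (fun a => abs_le.2 a.2)).trans (h0 n)
  have h3 := pull (past_le (n - 1)) (int_cont κ (cont_coord n)) hW hWb h2
  calc ∫ x, (x n : ℝ) * ((∏ k ∈ s, ψ k (x k)) * R x) ∂κ
      = ∫ x, ((∏ k ∈ s, ψ k (x k)) * R x) * (x n : ℝ) ∂κ := by
        refine integral_congr_ae (Eventually.of_forall fun x => ?_)
        exact mul_comm _ _
    _ = ∫ x, ((∏ k ∈ s, ψ k (x k)) * R x) * (0 : X → ℝ) x ∂κ := h3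
    _ = 0 := by simp

theorem corr {κ : Measure X} [IsProbabilityMeasure κ]
    (h1 : ∀ (m : ℤ) (ψ : I1 → ℝ), Measurable ψ → (∀ a, |ψ a| ≤ 1) →
      κ[fun x => ψ (x m) | past (m - 1)] =ᵐ[κ] κ[fun x => ψ (x m) | remote])
    (h0 : ∀ n : ℤ, κ[fun x => (x n : ℝ) | remote] =ᵐ[κ] 0)
    {ψ : ℤ → I1 → ℝ} (hψ : ∀ k, Measurable (ψ k)) (hb : ∀ k a, |ψ k a| ≤ 1) (s : Finset ℤ) :
    ∀ (n : ℤ) (R : X → ℝ) (C : ℝ), n ∉ s → Measurable[remote] R → (∀ x, |R x| ≤ C) →
      ∫ x, (x n : ℝ) * ((∏ k ∈ s, ψ k (x k)) * R x) ∂κ = 0 := by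
  induction s using Finset.induction_on_max with
  | empty =>
    intro n R C _ hR hC
    exact direct h1 h0 hψ hb hR hC ∅ n fun k hk => absurd hk (Finset.notMem_empty k)
  | insert m s hm ih =>
    intro n R C hn hR hC
    have hnm : n ≠ m := fun h => hn (h ▸ Finset.mem_insert_self m s)
    have hns : n ∉ s := fun h => hn (Finset.mem_insert_of_mem h)
    have hms : m ∉ s := fun h => lt_irrefl _ (hm m h)
    rcases lt_or_gt_of_ne hnm with hlt | hgt
    · have hW : Measurable[past (m - 1)] fun x : X => (x n : ℝ) * ((∏ k ∈ s, ψ k (x k)) * R x) :=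
        (meas_coord measurable_subtype_coe (by omega : n ≤ m - 1)).mul
          ((prod_meas hψ s fun k hk => by
            have := hm k hk
            omega).mul (hR.mono (remote_le_past _) le_rfl))
      have hWb : ∀ x : X, |(x n : ℝ) * ((∏ k ∈ s, ψ k (x k)) * R x)| ≤ C := by
        intro x
        rw [abs_mul, abs_mul]
        calc |(x n : ℝ)| * (|∏ k ∈ s, ψ k (x k)| * |R x|) ≤ 1 * (1 * |R x|) :=
              mul_le_mul (abs_coord x n)
                (mul_le_mul_of_nonneg_right (prod_bd hb s x) (abs_nonneg _))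
                (mul_nonneg (abs_nonneg _) (abs_nonneg _)) zero_le_one
          _ ≤ C := by
              rw [one_mul, one_mul]
              exact hC x
      have hint : Integrable (fun x : X => ψ m (x m)) κ :=
        Integrable.of_bound (C := 1)
          ((hψ m).comp (measurable_pi_apply m)).aestronglyMeasurable
          (Eventually.of_forall fun x => by
            rw [Real.norm_eq_abs]
            exact hb m _)
      set G : X → ℝ := κ[fun x => ψ m (x m) | remote] with hG
      have hGm : Measurable[remote] G := stronglyMeasurable_condExp.measurable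
      have hGb : ∀ᵐ x ∂κ, |G x| ≤ 1 := by
        have := ae_bdd_abs_condExp_of_ae_bdd_abs (m := remote) (μ := κ) (R := 1)
          (f := fun x : X => ψ m (x m)) (Eventually.of_forall fun x => by simpa using hb m (x m))
        simpa using this
      have h3 := pull (past_le (m - 1)) hint hW hWb (h1 m (ψ m) (hψ m) (hb m))
      have hKm : Measurable[remote] fun x : X => max (-1) (min 1 (G x)) * R x :=
        (measurable_const.max (measurable_const.min hGm)).mul hR
      have hKb : ∀ x : X, |max (-1) (min 1 (G x)) * R x| ≤ C := by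
        intro x
        rw [abs_mul]
        have h4 : |max (-1) (min 1 (G x))| ≤ 1 :=
          abs_le.2 ⟨le_max_left _ _, max_le (by norm_num) (min_le_left _ _)⟩
        calc |max (-1) (min 1 (G x))| * |R x| ≤ 1 * |R x| :=
              mul_le_mul_of_nonneg_right h4 (abs_nonneg _)
          _ ≤ C := by
              rw [one_mul]
              exact hC x
      have h5 := ih n _ C hns hKm hKb
      calc ∫ x, (x n : ℝ) * ((∏ k ∈ insert m s, ψ k (x k)) * R x) ∂κ
          = ∫ x, ((x n : ℝ) * ((∏ k ∈ s, ψ k (x k)) * R x)) * ψ m (x m) ∂κ := by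
            refine integral_congr_ae (Eventually.of_forall fun x => ?_)
            show (x n : ℝ) * ((∏ k ∈ insert m s, ψ k (x k)) * R x) =
              ((x n : ℝ) * ((∏ k ∈ s, ψ k (x k)) * R x)) * ψ m (x m)
            rw [Finset.prod_insert hms]
            ring
        _ = ∫ x, ((x n : ℝ) * ((∏ k ∈ s, ψ k (x k)) * R x)) * G x ∂κ := h3
        _ = ∫ x, (x n : ℝ) * ((∏ k ∈ s, ψ k (x k)) * (max (-1) (min 1 (G x)) * R x)) ∂κ := by
            refine integral_congr_ae ?_
            filter_upwards [hGb] with x hx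
            have h6 := abs_le.1 hx
            rw [min_eq_right h6.2, max_eq_right h6.1]
            ring
        _ = 0 := h5
    · refine direct h1 h0 hψ hb hR hC (insert m s) n fun k hk => ?_
      rcases Finset.mem_insert.1 hk with rfl | hk
      · exact hgt
      · exact (hm k hk).trans hgt

/-! ### From the correlations to the remote past -/

open Classical in
/-- the coefficients of the interpolation polynomial of the indicator of `E` at `-1, 0, 1` -/
noncomputable def cf (E : Set I1) (j : ℕ) : ℝ :=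
  if j = 0 then (if z1 ∈ E then 1 else 0)
  else if j = 1 then ((if o1 ∈ E then 1 else 0) - (if m1 ∈ E then 1 else 0)) / 2
  else ((if o1 ∈ E then 1 else 0) + (if m1 ∈ E then 1 else 0)) / 2 - (if z1 ∈ E then 1 else 0)

/-- the interpolation polynomial -/
noncomputable def ip (E : Set I1) (a : I1) : ℝ := ∑ j ∈ range 3, cf E j * (a : ℝ) ^ j

open Classical in
theorem ip_eq (E : Set I1) (a : I1) (ha : (a : ℝ) = -1 ∨ (a : ℝ) = 0 ∨ (a : ℝ) = 1) :
    ip E a = if a ∈ E then 1 else 0 := by
  have e : ip E a = cf E 0 + cf E 1 * a + cf E 2 * (a : ℝ) ^ 2 := by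
    unfold ip
    rw [Finset.sum_range_succ, Finset.sum_range_succ, Finset.sum_range_succ, Finset.sum_range_zero]
    ring
  have e0 : cf E 0 = if z1 ∈ E then 1 else 0 := by
    unfold cf
    rw [if_pos rfl]
  have e1 : cf E 1 = ((if o1 ∈ E then 1 else 0) - (if m1 ∈ E then 1 else 0)) / 2 := by
    unfold cf
    rw [if_neg one_ne_zero, if_pos rfl]
  have e2 : cf E 2 = ((if o1 ∈ E then 1 else 0) + (if m1 ∈ E then 1 else 0)) / 2 -
      (if z1 ∈ E then 1 else 0) := by
    unfold cf
    rw [if_neg two_ne_zero, if_neg (by norm_num)]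
  rw [e, e0, e1, e2]
  rcases ha with h | h | h
  · have : a = m1 := Subtype.ext h
    rw [this]
    show _ + _ * (-1 : ℝ) + _ * (-1 : ℝ) ^ 2 = _
    ring
  · have : a = z1 := Subtype.ext h
    rw [this]
    show _ + _ * (0 : ℝ) + _ * (0 : ℝ) ^ 2 = _
    ring
  · have : a = o1 := Subtype.ext h
    rw [this]
    show _ + _ * (1 : ℝ) + _ * (1 : ℝ) ^ 2 = _
    ring

theorem cont_mon (t : Finset ℤ) (e : ℤ → ℕ) : Continuous fun x : X => ∏ k ∈ t, (x k : ℝ) ^ e k :=
  continuous_finsetProd _ fun k _ => (cont_coord k).pow _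

theorem cont_ip (s : Finset ℤ) (E : ℤ → Set I1) : Continuous fun x : X => ∏ k ∈ s, ip (E k) (x k) :=
  continuous_finsetProd _ fun k _ =>
    continuous_finsetSum _ fun _ _ => continuous_const.mul ((cont_coord k).pow _)

theorem mon_ins {t : Finset ℤ} {m : ℤ} (hm : m ∉ t) (e : ℤ → ℕ) (j : ℕ) (x : X) :
    ∏ k ∈ insert m t, (x k : ℝ) ^ (Function.update e m j) k =
      (x m : ℝ) ^ j * ∏ k ∈ t, (x k : ℝ) ^ e k := by
  rw [Finset.prod_insert hm, Function.update_self]
  congr 1
  refine Finset.prod_congr rfl fun k hk => ?_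
  have : k ≠ m := fun h => hm (h ▸ hk)
  rw [Function.update_of_ne this]

theorem poly {κ : Measure X} [IsProbabilityMeasure κ]
    (hv : ∀ (s : Finset ℤ) (n : ℤ) (e : ℤ → ℕ), n ∉ s →
      ∫ x, (x n : ℝ) * ∏ k ∈ s, (x k : ℝ) ^ e k ∂κ = 0) (E : ℤ → Set I1) (s : Finset ℤ) :
    ∀ (t : Finset ℤ) (e : ℤ → ℕ), Disjoint s t → (0 : ℤ) ∉ s → (0 : ℤ) ∉ t →
      ∫ x, (x 0 : ℝ) * (∏ k ∈ t, (x k : ℝ) ^ e k) * ∏ k ∈ s, ip (E k) (x k) ∂κ = 0 := by
  induction s using Finset.induction_on with
  | empty =>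
    intro t e _ _ ht
    rw [← hv t 0 e ht]
    refine integral_congr_ae (Eventually.of_forall fun x => ?_)
    show (x 0 : ℝ) * (∏ k ∈ t, (x k : ℝ) ^ e k) * ∏ k ∈ ∅, ip (E k) (x k) = _
    rw [Finset.prod_empty, mul_one]
  | insert m s hm ih =>
    intro t e hd h0 ht
    have hmt : m ∉ t := Finset.disjoint_left.1 hd (Finset.mem_insert_self m s)
    have h0s : (0 : ℤ) ∉ s := fun h => h0 (Finset.mem_insert_of_mem h)
    have h0m : (0 : ℤ) ≠ m := fun h => h0 (h ▸ Finset.mem_insert_self m s)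
    have hd2 : Disjoint s (insert m t) := by
      rw [Finset.disjoint_insert_right]
      exact ⟨hm, Finset.disjoint_of_subset_left (Finset.subset_insert m s) hd⟩
    have h0t : (0 : ℤ) ∉ insert m t := by
      rw [Finset.mem_insert]
      exact fun h => h.elim h0m ht
    calc ∫ x, (x 0 : ℝ) * (∏ k ∈ t, (x k : ℝ) ^ e k) * ∏ k ∈ insert m s, ip (E k) (x k) ∂κ
        = ∫ x, ∑ j ∈ range 3, cf (E m) j * ((x 0 : ℝ) *
            (∏ k ∈ insert m t, (x k : ℝ) ^ (Function.update e m j) k) *
              ∏ k ∈ s, ip (E k) (x k)) ∂κ := by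
          refine integral_congr_ae (Eventually.of_forall fun x => ?_)
          show (x 0 : ℝ) * (∏ k ∈ t, (x k : ℝ) ^ e k) * ∏ k ∈ insert m s, ip (E k) (x k) =
            ∑ j ∈ range 3, cf (E m) j * ((x 0 : ℝ) *
            (∏ k ∈ insert m t, (x k : ℝ) ^ (Function.update e m j) k) * ∏ k ∈ s, ip (E k) (x k))
          rw [Finset.prod_insert hm]
          have e1 : ip (E m) (x m) = ∑ j ∈ range 3, cf (E m) j * (x m : ℝ) ^ j := rfl
          rw [e1, Finset.sum_mul, Finset.mul_sum]
          refine Finset.sum_congr rfl fun j _ => ?_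
          rw [mon_ins hmt]
          ring
      _ = ∑ j ∈ range 3, cf (E m) j * ∫ x, (x 0 : ℝ) *
            (∏ k ∈ insert m t, (x k : ℝ) ^ (Function.update e m j) k) *
              ∏ k ∈ s, ip (E k) (x k) ∂κ := by
          rw [integral_finsetSum]
          · refine Finset.sum_congr rfl fun j _ => ?_
            rw [integral_const_mul]
          · intro j _
            refine int_cont κ (continuous_const.mul ?_)
            exact ((cont_coord 0).mul (cont_mon _ _)).mul (cont_ip s E)
      _ = 0 := by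
          refine Finset.sum_eq_zero fun j _ => ?_
          rw [ih (insert m t) (Function.update e m j) hd2 h0s h0t, mul_zero]

theorem basic {κ : Measure X} [IsProbabilityMeasure κ] (hT : Trit κ)
    (hv : ∀ (s : Finset ℤ) (n : ℤ) (e : ℤ → ℕ), n ∉ s →
      ∫ x, (x n : ℝ) * ∏ k ∈ s, (x k : ℝ) ^ e k ∂κ = 0) (E : ℤ → Set I1)
    (hE : ∀ k, MeasurableSet (E k)) (s : Finset ℤ) (h0 : (0 : ℤ) ∉ s) :
    ∫ x in ⋂ k ∈ s, (fun x : X => x k) ⁻¹' E k, (x 0 : ℝ) ∂κ = 0 := by
  classical
  have hm : MeasurableSet (⋂ k ∈ s, (fun x : X => x k) ⁻¹' E k) :=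
    Finset.measurableSet_biInter s fun k _ => measurable_pi_apply k (hE k)
  rw [← integral_indicator hm, ← poly hv E s ∅ (fun _ => 0) (Finset.disjoint_empty_right s) h0
    (Finset.notMem_empty 0)]
  refine integral_congr_ae ?_
  filter_upwards [hT] with x hx
  rw [Finset.prod_empty, mul_one]
  have h1 : ∏ k ∈ s, ip (E k) (x k) = ∏ k ∈ s, if x k ∈ E k then (1 : ℝ) else 0 :=
    Finset.prod_congr rfl fun k _ => ip_eq (E k) (x k) (hx k)
  rw [h1]
  by_cases hxs : x ∈ ⋂ k ∈ s, (fun x : X => x k) ⁻¹' E k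
  · rw [Set.indicator_of_mem hxs]
    have h2 : ∏ k ∈ s, (if x k ∈ E k then (1 : ℝ) else 0) = 1 := by
      refine Finset.prod_eq_one fun k hk => ?_
      rw [if_pos]
      exact Set.mem_iInter₂.1 hxs k hk
    rw [h2, mul_one]
  · rw [Set.indicator_of_notMem hxs]
    have h2 : ∃ k ∈ s, x k ∉ E k := by
      by_contra hcon
      push Not at hcon
      exact hxs (Set.mem_iInter₂.2 hcon)
    obtain ⟨k, hk, hkE⟩ := h2
    have h3 : ∏ k ∈ s, (if x k ∈ E k then (1 : ℝ) else 0) = 0 := by
      refine Finset.prod_eq_zero hk ?_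
      rw [if_neg hkE]
    rw [h3, mul_zero]

theorem past_zero {κ : Measure X} [IsProbabilityMeasure κ] (hT : Trit κ)
    (hv : ∀ (s : Finset ℤ) (n : ℤ) (e : ℤ → ℕ), n ∉ s →
      ∫ x, (x n : ℝ) * ∏ k ∈ s, (x k : ℝ) ^ e k ∂κ = 0) :
    κ[fun x => (x 0 : ℝ) | past (-1)] =ᵐ[κ] 0 := by
  have hint := int_cont κ (cont_coord 0)
  have htot : ∫ x : X, (x 0 : ℝ) ∂κ = 0 := by
    have := hv ∅ 0 (fun _ => 0) (Finset.notMem_empty 0)
    simpa using this
  have key : ∀ B : Set X, MeasurableSet[past (-1)] B → ∫ x in B, (x 0 : ℝ) ∂κ = 0 := by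
    intro B hB
    have h_eq : past (-1) = MeasurableSpace.generateFrom (piiUnionInter
        (fun k : ℤ => {s | MeasurableSet[MeasurableSpace.comap (fun x : X => x k) inferInstance] s})
          (Set.Iic (-1))) := by
      exact (generateFrom_piiUnionInter_measurableSet
        (fun k : ℤ => MeasurableSpace.comap (fun x : X => x k) inferInstance) (Set.Iic (-1))).symm
    have h_pi := isPiSystem_piiUnionInter
      (fun k : ℤ => {s | MeasurableSet[MeasurableSpace.comap (fun x : X => x k) inferInstance] s})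
      (fun k => @MeasurableSpace.isPiSystem_measurableSet X
        (MeasurableSpace.comap (fun x : X => x k) inferInstance)) (Set.Iic (-1))
    refine @MeasurableSpace.induction_on_inter X (past (-1))
      (fun B _ => ∫ x in B, (x 0 : ℝ) ∂κ = 0) _ h_eq h_pi ?_ ?_ ?_ ?_ B hB
    · simp
    · rintro A ⟨t, ht, f, hf, rfl⟩
      have h1 : ∀ k : ℤ, ∃ E : Set I1, MeasurableSet E ∧ (k ∈ t → (fun x : X => x k) ⁻¹' E = f k) := by
        intro k
        by_cases hk : k ∈ t
        · obtain ⟨E, hE, hE2⟩ := hf k hk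
          exact ⟨E, hE, fun _ => hE2⟩
        · exact ⟨∅, MeasurableSet.empty, fun h => absurd h hk⟩
      choose E hE hE2 using h1
      have h2 : ⋂ k ∈ t, f k = ⋂ k ∈ t, (fun x : X => x k) ⁻¹' E k :=
        Set.iInter₂_congr fun k hk => (hE2 k hk).symm
      rw [h2]
      refine basic hT hv E hE t fun h0 => ?_
      have := ht h0
      rw [Set.mem_Iic] at this
      omega
    · intro A hA hA2
      have h1 := integral_add_compl (past_le (-1) _ hA) hint
      rw [htot] at h1
      linarith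
    · intro f hd hm hf
      rw [integral_iUnion (fun i => past_le (-1) _ (hm i)) hd hint.integrableOn]
      simp only [hf, tsum_zero]
  symm
  refine ae_eq_condExp_of_forall_setIntegral_eq (past_le (-1)) hint
    (fun s _ _ => (integrable_zero X ℝ κ).integrableOn) (fun B hB _ => ?_)
    stronglyMeasurable_zero.aestronglyMeasurable
  rw [key B hB]
  simp

theorem pf_CHO : T_CHO := by
  intro κ _ hS hT h1 _
  constructor
  · intro hv
    have h2 := h1 0 (fun a => (a : ℝ)) measurable_subtype_coe (fun a => abs_le.2 a.2)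
    exact h2.symm.trans (past_zero hT hv)
  · intro h0 s n e hn
    have h3 := corr h1 (zero_all hS h0) (ψ := fun k a => (a : ℝ) ^ e k)
      (fun k => measurable_subtype_coe.pow_const (e k)) (fun k a => by
        rw [abs_pow]
        exact pow_le_one₀ (abs_nonneg _) (abs_le.2 a.2)) s n (fun _ => 1) 1 hn measurable_const
      (fun _ => by rw [abs_one])
    simpa using h3

end Pool.Agent.H85.RP
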