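import Pool.Agent.H36.RP.Targets

/-!
# Row INV of rp_modules: the invariant sets belong to the remote past
-/

set_option autoImplicit false

open MeasureTheory ProbabilityTheory Filter Topology Finset

namespace Pool.Agent.H85.RP

open Pool.Agent.H89.MT (I1 X pt z1 IsMult)
open Pool.Agent.H36.RP

theorem measurable_S : Measurable S := by
  refine measurable_pi_iff.2 fun t => ?_
  exact measurable_pi_apply (t + 1)

theorem iter_S (N : ℕ) (x : X) : S^[N] x = fun t => x (t + N) := by
  induction N generalizing x with
  | zero => simp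
  | succ N ih =>
    rw [Function.iterate_succ_apply, ih]
    funext t
    show x (t + N + 1) = x (t + (N + 1 : ℕ))
    push_cast
    rw [add_assoc]

theorem iter_inv {A : Set X} (hA : S ⁻¹' A = A) (N : ℕ) (x : X) : S^[N] x ∈ A ↔ x ∈ A := by
  induction N generalizing x with
  | zero => rfl
  | succ N ih =>
    rw [Function.iterate_succ_apply, ih]
    have h := Set.ext_iff.1 hA x
    exact h

/-- the coordinates `x (k - N)`, `|k| ≤ H` -/
noncomputable def cut (H N : ℕ) (x : X) : X := fun k => if |k| ≤ (H : ℤ) then x (k - N) else z1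

theorem measurable_cut {H N : ℕ} {q : ℤ} (h : (H : ℤ) - N ≤ q) : Measurable[past q] (cut H N) := by
  refine (@measurable_pi_iff X ℤ (fun _ => I1) (past q) _ _).2 fun k => ?_
  by_cases hk : |k| ≤ (H : ℤ)
  · have e1 : (fun x : X => cut H N x k) = fun x : X => x (k - N) := by
      funext x
      unfold cut
      rw [if_pos hk]
    rw [e1]
    have hkq : k - N ≤ q := by
      have := le_abs_self k
      omega
    have h1 : MeasurableSpace.comap (fun x : X => x (k - N)) inferInstance ≤ past q := by
      unfold past
      exact le_iSup_of_le (k - N) (le_iSup_of_le hkq le_rfl)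
    exact measurable_iff_comap_le.2 h1
  · have e1 : (fun x : X => cut H N x k) = fun _ : X => z1 := by
      funext x
      unfold cut
      rw [if_neg hk]
    rw [e1]
    exact measurable_const

theorem pf_INV (hAPF : T_APF) (hPYT : T_PYT) (hTAI : T_TAI) : T_INV := by
  intro κ _ hS A hA hAi
  set f : X → ℝ := A.indicator (fun _ => (1 : ℝ)) with hf
  have hfm : Measurable f := measurable_const.indicator hA
  have hfb : ∀ x, |f x| ≤ 1 := by
    intro x
    rw [hf]
    by_cases hx : x ∈ A
    · rw [Set.indicator_of_mem hx, abs_one]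
    · rw [Set.indicator_of_notMem hx, abs_zero]
      exact zero_le_one
  have hfi : ∀ (N : ℕ) (x : X), f (S^[N] x) = f x := by
    intro N x
    rw [hf]
    by_cases hx : x ∈ A
    · rw [Set.indicator_of_mem hx, Set.indicator_of_mem ((iter_inv hAi N x).2 hx)]
    · rw [Set.indicator_of_notMem hx,
        Set.indicator_of_notMem (fun h => hx ((iter_inv hAi N x).1 h))]
  have key : ∀ q : ℤ, κ[f | past q] =ᵐ[κ] f := by
    intro q
    have h1 : ∀ ε : ℝ, 0 < ε → ∫ x, (f x - (κ[f | past q]) x) ^ 2 ∂κ ≤ ε := by
      intro ε hε
      obtain ⟨φ, H, hφc, hφl, hφε⟩ := hAPF κ f 1 hfm hfb ε hε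
      obtain ⟨N, hN⟩ : ∃ N : ℕ, (H : ℤ) - N ≤ q := ⟨(H - q).toNat, by
        have := Int.self_le_toNat ((H : ℤ) - q)
        omega⟩
      obtain ⟨D, hD⟩ := (isCompact_univ (X := X)).exists_bound_of_continuousOn hφc.continuousOn
      have h2 := (hPYT κ f 1 hfm hfb).1 q (fun x => φ (cut H N x)) D
        (hφc.measurable.comp (measurable_cut hN))
        (fun x => by
          have := hD (cut H N x) (Set.mem_univ _)
          rwa [Real.norm_eq_abs] at this)
      refine h2.trans (le_trans (le_of_eq ?_) hφε)
      have hmp : MeasurePreserving (S^[N]) κ κ := hS.iterate N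
      have hgm : Measurable (fun x : X => (f x - φ (cut H N x)) ^ 2) := by
        refine (hfm.sub (hφc.measurable.comp ?_)).pow_const 2
        exact (measurable_cut hN).mono (past_le q) le_rfl
      have h3 := integral_map (μ := κ) (φ := S^[N]) hmp.measurable.aemeasurable
        (f := fun x : X => (f x - φ (cut H N x)) ^ 2) hgm.aestronglyMeasurable
      rw [hmp.map_eq] at h3
      rw [h3]
      refine integral_congr_ae (Eventually.of_forall fun x => ?_)
      have h4 : φ (cut H N (S^[N] x)) = φ x := by
        refine hφl _ _ fun k hk => ?_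
        unfold cut
        rw [if_pos hk, iter_S]
        show x (k - N + N) = x k
        rw [sub_add_cancel]
      show (f (S^[N] x) - φ (cut H N (S^[N] x))) ^ 2 = (f x - φ x) ^ 2
      rw [hfi, h4]
    have hb : ∀ᵐ x ∂κ, |(κ[f | past q]) x| ≤ 1 := by
      have := ae_bdd_abs_condExp_of_ae_bdd_abs (m := past q) (μ := κ) (R := 1) (f := f)
        (Eventually.of_forall fun x => by simpa using hfb x)
      simpa using this
    have hint : Integrable (fun x => (f x - (κ[f | past q]) x) ^ 2) κ := by
      refine Integrable.of_bound (C := 4) ?_ ?_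
      · exact (hfm.aestronglyMeasurable.sub
          (stronglyMeasurable_condExp.mono (past_le q)).aestronglyMeasurable).pow 2
      · filter_upwards [hb] with x hx
        have h5 := hfb x
        rw [Real.norm_eq_abs, abs_of_nonneg (sq_nonneg _)]
        rw [abs_le] at hx h5
        nlinarith
    have h0 : ∫ x, (f x - (κ[f | past q]) x) ^ 2 ∂κ = 0 := by
      refine le_antisymm ?_ (integral_nonneg fun x => sq_nonneg _)
      exact le_of_forall_pos_le_add fun ε hε => by
        rw [zero_add]
        exact h1 ε hε
    rw [integral_eq_zero_iff_of_nonneg (fun x => sq_nonneg _) hint] at h0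
    filter_upwards [h0] with x hx
    have h6 : (f x - (κ[f | past q]) x) ^ 2 = 0 := hx
    have h7 := pow_eq_zero_iff (two_ne_zero) |>.1 h6
    linarith
  have h8 := hTAI κ f 0 fun j => (key 0).trans (key (0 - j)).symm
  exact h8.symm.trans (key 0)

end Pool.Agent.H85.RP
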